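import Pool.Agent.Helper667_BS.Main

/-!
# Counting the runs
-/

set_option autoImplicit false

namespace Pool.Agent.Helper667_BS

open Finset Pool.Agent.H125R2.ET Pool.Agent.Helper667_AS

theorem geo_find {E k0 : ℕ} (hE : 0 < E) (h : E ≤ k0) {x : ℕ} (hx : k0 ≤ x) :
    ∃ i, geo E k0 i ≤ x ∧ x < geo E k0 (i + 1) := by
  classical
  have hex : ∃ i, x < geo E k0 i := ⟨x, by
    have := geo_idx hE h x
    omega⟩
  obtain ⟨m, hm, hmin⟩ : ∃ m, x < geo E k0 m ∧ ∀ i < m, ¬ x < geo E k0 i :=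
    ⟨Nat.find hex, Nat.find_spec hex, fun i hi => Nat.find_min hex hi⟩
  have hm0 : m ≠ 0 := by
    rintro rfl
    have : geo E k0 0 = k0 := rfl
    omega
  obtain ⟨i, rfl⟩ := Nat.exists_eq_succ_of_ne_zero hm0
  exact ⟨i, not_lt.1 (hmin i (Nat.lt_succ_self i)), hm⟩

theorem many_succ {C C4 K0 : ℕ} (hC : HasBase C) (hmain : WideSet C C4 K0) {D j ρ : ℕ}
    {B : Set ℕ} (hB : Many D (j + 10) B ρ) {E : ℕ} (hE : 64 ≤ E) :
    ∃ A : Set ℕ, Many (D + 1) j A (C4 * (ρ + 8 * E)) ∧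
      (1 ≤ j → ∃ K1, ∀ K ≥ K1, ∃ k, K ≤ k ∧ E * k ≤ (E + 2) * K ∧ ¬ Bad A k) := by
  classical
  obtain ⟨c, KB, hcnt⟩ := hB.cnt
  obtain ⟨A, k0, hk1, hk2, hA1, hA2⟩ := windows hC hmain hB.rep hE (KB + 4)
  have hE0 : 0 < E := by omega
  have hE1 : 1 ≤ E := hE0
  obtain ⟨u, hu⟩ : ∃ u : ℕ → ℕ, ∀ i, u i = geo E k0 i / E := ⟨_, fun i => rfl⟩
  have hulow : ∀ i, KB + 4 ≤ u i := by
    intro i
    rw [hu, Nat.le_div_iff_mul_le hE0]
    have := geo_ge E k0 i
    have e1 : (KB + 4) * E ≤ 4 * E * (KB + 4) := by nlinarith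
    omega
  have hEu : ∀ i, E * u i ≤ geo E k0 i := by
    intro i
    rw [hu]
    exact Nat.mul_div_le _ _
  have hule : ∀ i, u i ≤ geo E k0 i := fun i => by
    rw [hu]; exact Nat.div_le_self _ _
  have hsep : ∀ i i', i < i' → 8 * geo E k0 i + u i ≤ 8 * geo E k0 i' := by
    intro i i' h
    have := geo_gap (k0 := k0) hE h
    rw [hu]
    omega
  have hw : ∀ i l, 13 ≤ l → l < u i → (∀ t < 10, ¬ Bad B (l - t)) →
      ¬ Bad A (8 * geo E k0 i + l) := by
    intro i l h1 h2 h3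
    rw [hu] at h2
    exact hA2 i l h1 h2 h3
  refine ⟨A, ⟨hA1, c * 8 ^ (D + 1), 2 ^ (32 * k0), ?_⟩, ?_⟩
  · intro K hK
    obtain ⟨L, hL⟩ : ∃ L, L = Nat.log 2 K := ⟨_, rfl⟩
    obtain ⟨h, hh⟩ : ∃ h, h = L / 4 := ⟨_, rfl⟩
    have hK0 : K ≠ 0 := by
      have : 0 < 2 ^ (32 * k0) := by positivity
      omega
    have hLK : 2 ^ L ≤ K := by rw [hL]; exact Nat.pow_log_le_self 2 hK0
    have hL1 : 32 * k0 ≤ L := by
      rw [hL]
      exact (Nat.le_log_iff_pow_le (by norm_num) hK0).2 hK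
    rw [← hL]
    have hk3 : 1 ≤ k0 := by omega
    have hLh : L ≤ 8 * h := by omega
    have hidx : ∀ a : ℕ, ∃ i, geo E k0 i ≤ 2 ^ a * k0 ∧ 2 ^ a * k0 < geo E k0 (i + 1) := fun a =>
      geo_find hE0 hk2 (Nat.le_mul_of_pos_left _ (by positivity))
    choose idx hi1 hi2 using hidx
    have hlow : ∀ a b, a < b → 2 ^ a * k0 < geo E k0 (idx b) := by
      intro a b hab
      have e1 := geo_two E k0 (idx b)
      have e2 := hi2 b
      have e3 : 2 ^ (a + 1) * k0 ≤ 2 ^ b * k0 :=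
        Nat.mul_le_mul_right _ (Nat.pow_le_pow_right (by norm_num) hab)
      have e4 : 2 ^ (a + 1) * k0 = 2 * (2 ^ a * k0) := by ring
      omega
    have hinj : ∀ a b, a < b → idx a ≠ idx b := by
      intro a b hab he
      have e1 := hlow a b hab
      have e2 := hi1 a
      rw [he] at e2
      omega
    have hI : ∀ i ∈ (Ioc h (2 * h)).image idx, 8 * geo E k0 i + u i ≤ K := by
      intro i hi
      rw [mem_image] at hi
      obtain ⟨a, ha, rfl⟩ := hi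
      rw [mem_Ioc] at ha
      have e1 := hi1 a
      have e2 := hule (idx a)
      have e3 : 2 ^ a * k0 ≤ 2 ^ (2 * h) * k0 :=
        Nat.mul_le_mul_right _ (Nat.pow_le_pow_right (by norm_num) ha.2)
      have e4 : 16 * k0 ≤ 2 ^ (L - 2 * h) := by
        calc 16 * k0 ≤ 2 ^ (16 * k0) := (Nat.lt_two_pow_self).le
          _ ≤ 2 ^ (L - 2 * h) := Nat.pow_le_pow_right (by norm_num) (by omega)
      have e5 : 16 * (2 ^ (2 * h) * k0) ≤ K := by
        calc 16 * (2 ^ (2 * h) * k0) = 16 * k0 * 2 ^ (2 * h) := by ring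
          _ ≤ 2 ^ (L - 2 * h) * 2 ^ (2 * h) := Nat.mul_le_mul_right _ e4
          _ = 2 ^ L := by rw [← pow_add]; congr 1; omega
          _ ≤ K := hLK
      omega
    have hsum := runs_sum (A := A) (B := B) (κ := geo E k0) (u := u) (j := j) (K := K) hw hsep
      ((Ioc h (2 * h)).image idx) hI
    rw [sum_image (by
      intro a _ b _ hab
      rcases lt_trichotomy a b with h1 | h1 | h1
      · exact absurd hab (hinj a b h1)
      · exact h1
      · exact absurd hab.symm (hinj b a h1))] at hsum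
    have hterm : ∀ a ∈ Ioc h (2 * h), h ^ D ≤ c * (runs B (j + 10) (u (idx a))).card := by
      intro a ha
      rw [mem_Ioc] at ha
      have e1 := hcnt (u (idx a)) (by have := hulow (idx a); omega)
      refine le_trans (Nat.pow_le_pow_left ?_ D) e1
      have e2 := hlow h a ha.1
      have e3 : 2 ^ h ≤ u (idx a) := by
        rw [hu, Nat.le_div_iff_mul_le hE0]
        calc 2 ^ h * E ≤ 2 ^ h * k0 := Nat.mul_le_mul_left _ hk2
          _ ≤ geo E k0 (idx a) := e2.le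
      exact (Nat.le_log_iff_pow_le (by norm_num) (by
        have := hulow (idx a)
        omega)).2 e3
    have hs2 : h * h ^ D ≤ c * (runs A j K).card := by
      calc h * h ^ D = ∑ _a ∈ Ioc h (2 * h), h ^ D := by
            rw [sum_const, Nat.card_Ioc, smul_eq_mul]
            congr 1
            omega
        _ ≤ ∑ a ∈ Ioc h (2 * h), c * (runs B (j + 10) (u (idx a))).card := sum_le_sum hterm
        _ = c * ∑ a ∈ Ioc h (2 * h), (runs B (j + 10) (u (idx a))).card := by rw [mul_sum]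
        _ ≤ c * (runs A j K).card := Nat.mul_le_mul_left _ hsum
    calc L ^ (D + 1) ≤ (8 * h) ^ (D + 1) := Nat.pow_le_pow_left hLh _
      _ = 8 ^ (D + 1) * (h * h ^ D) := by ring
      _ ≤ 8 ^ (D + 1) * (c * (runs A j K).card) := Nat.mul_le_mul_left _ hs2
      _ = c * 8 ^ (D + 1) * (runs A j K).card := by ring
  · intro hj
    refine ⟨8 * k0 + 8, fun K hK => ?_⟩
    obtain ⟨i, hi1, hi2⟩ := geo_find (E := E) (k0 := k0) hE0 hk2 (x := (K - 1) / 8) (by omega)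
    have hne : (runs B (j + 10) (u (i + 1))).card ≠ 0 := by
      intro h0
      have e1 := hcnt (u (i + 1)) (by have := hulow (i + 1); omega)
      rw [h0, Nat.mul_zero, Nat.le_zero] at e1
      have e2 : 1 ≤ Nat.log 2 (u (i + 1)) := by
        have := hulow (i + 1)
        exact (Nat.le_log_iff_pow_le (by norm_num) (by omega)).2 (by omega)
      have e3 : 1 ≤ (Nat.log 2 (u (i + 1))) ^ D := Nat.one_le_pow _ _ e2
      omega
    obtain ⟨l, hl⟩ := card_ne_zero.1 hne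
    have hl' := mem_runs.1 hl
    have hrun := run_window (hw (i + 1)) hl
    refine ⟨8 * geo E k0 (i + 1) + (l + 9), by omega, ?_, ?_⟩
    · have e1 : 8 * geo E k0 (i + 1) + (l + 9) ≤ 8 * geo E k0 (i + 1) + u (i + 1) := by omega
      have e2 := geo_succ E k0 i
      have e3 : E * (geo E k0 i / E) ≤ geo E k0 i := Nat.mul_div_le _ _
      have e4 := hEu (i + 1)
      have e5 := geo_two E k0 i
      have e6 : 8 * geo E k0 i ≤ K := by omega
      calc E * (8 * geo E k0 (i + 1) + (l + 9)) ≤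
            E * (8 * geo E k0 (i + 1) + u (i + 1)) := Nat.mul_le_mul_left _ e1
        _ = 8 * (E * geo E k0 (i + 1)) + E * u (i + 1) := by ring
        _ ≤ 8 * ((E + 1) * geo E k0 i) + 2 * geo E k0 i := by
            refine Nat.add_le_add (Nat.mul_le_mul_left _ ?_) (e4.trans e5)
            rw [e2]
            nlinarith
        _ ≤ (E + 2) * (8 * geo E k0 i) := by nlinarith
        _ ≤ (E + 2) * K := Nat.mul_le_mul_left _ e6
    · have := hrun 0 hj
      rwa [Nat.add_zero] at this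

theorem Many.mono {D j ρ ρ' : ℕ} {A : Set ℕ} (h : Many D j A ρ) (hρ : ρ ≤ ρ') : Many D j A ρ' :=
  ⟨fun n => (h.rep n).trans hρ, h.cnt⟩

theorem many_exists {C C4 K0 : ℕ} (hC : HasBase C) (hmain : WideSet C C4 K0) (d : ℕ) :
    ∀ j : ℕ, ∃ B : Set ℕ, Many d j B (2 ^ (j + 4) * (2 ^ 20 * (C4 + 1)) ^ d) := by
  induction d with
  | zero =>
    intro j
    refine ⟨_, (many_base j).mono ?_⟩
    rw [pow_zero, Nat.mul_one]
  | succ d ih =>
    intro j
    obtain ⟨B, hB⟩ := ih (j + 10)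
    obtain ⟨A, hA, -⟩ := many_succ hC hmain hB (le_refl 64)
    refine ⟨A, hA.mono ?_⟩
    obtain ⟨X, hX⟩ : ∃ X, X = (2 ^ 20 * (C4 + 1)) ^ d := ⟨_, rfl⟩
    have hX1 : 1 ≤ X := by rw [hX]; exact Nat.one_le_pow _ _ (by positivity)
    rw [pow_succ (2 ^ 20 * (C4 + 1)), ← hX]
    obtain ⟨Y, hY⟩ : ∃ Y, Y = 2 ^ (j + 4) * X := ⟨_, rfl⟩
    have hY1 : 1 ≤ Y := by
      rw [hY]
      exact Nat.one_le_iff_ne_zero.2 (by positivity)
    have e1 : 2 ^ (j + 10 + 4) * X = 2 ^ 10 * Y := by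
      rw [hY, ← mul_assoc, ← pow_add]
      congr 2
      omega
    rw [e1]
    calc C4 * (2 ^ 10 * Y + 8 * 64) ≤ (C4 + 1) * (2 ^ 10 * Y + 512 * Y) :=
          Nat.mul_le_mul (by omega) (by omega)
      _ = (C4 + 1) * (1536 * Y) := by ring
      _ ≤ (C4 + 1) * (2 ^ 20 * Y) := Nat.mul_le_mul_left _ (Nat.mul_le_mul_right _ (by norm_num))
      _ = 2 ^ (j + 4) * (X * (2 ^ 20 * (C4 + 1))) := by rw [hY]; ring

open Classical in
/-- **Bounded representation functions and many full scales.** -/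
theorem main : ∃ C : ℕ, ∀ D E : ℕ, 64 ≤ E → ∃ A : Set ℕ,
    (∀ n, rA A n ≤ C ^ (D + 1) + C * E) ∧
    (∃ K1, ∀ K ≥ K1, ∃ k, K ≤ k ∧ E * k ≤ (E + 2) * K ∧ ¬ Bad A k) ∧
    (∃ c K0 : ℕ, ∀ K ≥ K0, (Nat.log 2 K) ^ (D + 1) ≤
      c * ((range K).filter (fun k => 4 ≤ k ∧ ¬ Bad A k)).card) := by
  obtain ⟨C, C4, K0, hC, hmain⟩ := consts
  obtain ⟨c1, hc1⟩ : ∃ c1, c1 = 2 ^ 20 * (C4 + 1) := ⟨_, rfl⟩
  refine ⟨c1, fun D E hE => ?_⟩
  obtain ⟨B, hB⟩ := many_exists hC hmain D 11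
  rw [← hc1] at hB
  obtain ⟨A, hA, hA2⟩ := many_succ hC hmain (j := 1) hB hE
  refine ⟨A, fun n => (hA.rep n).trans ?_, hA2 (le_refl 1), ?_⟩
  · obtain ⟨X, hX⟩ : ∃ X, X = c1 ^ D := ⟨_, rfl⟩
    have f1 : C4 * 2 ^ 15 ≤ c1 := by
      rw [hc1]
      omega
    have f2 : C4 * 8 ≤ c1 := by
      rw [hc1]
      omega
    have f3 : (11 : ℕ) + 4 = 15 := rfl
    rw [f3, pow_succ c1, ← hX]
    calc C4 * (2 ^ 15 * X + 8 * E) = X * (C4 * 2 ^ 15) + C4 * 8 * E := by ring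
      _ ≤ X * c1 + c1 * E := Nat.add_le_add (Nat.mul_le_mul_left _ f1) (Nat.mul_le_mul_right _ f2)
  · obtain ⟨c, K1, hc⟩ := hA.cnt
    refine ⟨c, K1, fun K hK => (hc K hK).trans (Nat.mul_le_mul_left _ (card_le_card ?_))⟩
    intro k hk
    have := mem_runs.1 hk
    rw [mem_filter, mem_range]
    refine ⟨this.1, this.2.1, ?_⟩
    have h0 := this.2.2.2 0 (by norm_num)
    rwa [Nat.add_zero] at h0

end Pool.Agent.Helper667_BS
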