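import Pool.Agent.Helper667_AS.Step

/-!
# Geometric sequences of wide blocks
-/

set_option autoImplicit false

namespace Pool.Agent.Helper667_BS

open Finset Pool.Agent.H125R2.ET Pool.Agent.Helper667_AS

/-- the scales -/
def geo (E k0 : ℕ) : ℕ → ℕ
  | 0 => k0
  | (i + 1) => geo E k0 i + geo E k0 i / E

theorem geo_succ (E k0 i : ℕ) : geo E k0 (i + 1) = geo E k0 i + geo E k0 i / E := rfl

theorem geo_mono (E k0 : ℕ) : Monotone (geo E k0) :=
  monotone_nat_of_le_succ (fun i => by rw [geo_succ]; exact Nat.le_add_right _ _)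

theorem geo_ge (E k0 i : ℕ) : k0 ≤ geo E k0 i := geo_mono E k0 (Nat.zero_le i)

theorem geo_two (E k0 i : ℕ) : geo E k0 (i + 1) ≤ 2 * geo E k0 i := by
  rw [geo_succ]
  have := Nat.div_le_self (geo E k0 i) E
  omega

theorem geo_idx {E k0 : ℕ} (hE : 0 < E) (h : E ≤ k0) (i : ℕ) : i + k0 ≤ geo E k0 i := by
  induction i with
  | zero => rw [Nat.zero_add]; exact le_refl _
  | succ i ih =>
    rw [geo_succ]
    have h1 : 1 ≤ geo E k0 i / E := by
      rw [Nat.one_le_div_iff hE]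
      exact h.trans (geo_ge E k0 i)
    omega

/-- `x - x / m` is monotone -/
theorem sub_div_mono {m x y : ℕ} (hm : 0 < m) (h : x ≤ y) : x + y / m ≤ y + x / m := by
  obtain ⟨t, rfl⟩ := Nat.exists_eq_add_of_le h
  have h1 : (x + t) / m ≤ x / m + t := by
    calc (x + t) / m ≤ (x + t * m) / m := Nat.div_le_div_right (by nlinarith)
      _ = x / m + t := Nat.add_mul_div_right _ _ hm
  omega

/-- the gaps -/
theorem geo_gap {E k0 : ℕ} (hE : 64 ≤ E) {i j : ℕ} (hij : j < i) :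
    8 * geo E k0 j + geo E k0 j / E + 8 * (geo E k0 i / (4 * E)) ≤ 8 * geo E k0 i := by
  have h1 : geo E k0 (j + 1) ≤ geo E k0 i := geo_mono E k0 hij
  have h2 := sub_div_mono (m := 4 * E) (by omega) h1
  have h3 : 8 * geo E k0 j + geo E k0 j / E + 8 * (geo E k0 (j + 1) / (4 * E)) ≤
      8 * geo E k0 (j + 1) := by
    have e1 := geo_two E k0 j
    rw [geo_succ]
    obtain ⟨x, hx⟩ : ∃ x, x = geo E k0 j := ⟨_, rfl⟩
    rw [geo_succ] at e1
    rw [← hx] at e1 ⊢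
    have e3 : (x + x / E) / (4 * E) ≤ (2 * x) / (4 * E) := Nat.div_le_div_right e1
    have e4 : (2 * x) / (4 * E) = x / E / 2 := by
      rw [Nat.div_div_eq_div_mul]
      have : 4 * E = 2 * (E * 2) := by ring
      rw [this, Nat.mul_div_mul_left _ _ (by norm_num)]
    have e5 : 2 * (x / E / 2) ≤ x / E := by omega
    omega
  omega

/-- `j` consecutive good scales starting with `k` -/
def Run (A : Set ℕ) (j k : ℕ) : Prop := ∀ t < j, ¬ Bad A (k + t)

open Classical in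
/-- the runs in `[4, K)` -/
noncomputable def runs (A : Set ℕ) (j K : ℕ) : Finset ℕ :=
  (range K).filter (fun k => 4 ≤ k ∧ k + j ≤ K ∧ Run A j k)

theorem mem_runs {A : Set ℕ} {j K k : ℕ} :
    k ∈ runs A j K ↔ k < K ∧ 4 ≤ k ∧ k + j ≤ K ∧ Run A j k := by
  classical
  unfold runs
  rw [mem_filter, mem_range]

/-- bounded representation function and at least `(log K) ^ D / c` runs of length `j` below `K` -/
structure Many (D j : ℕ) (A : Set ℕ) (ρ : ℕ) : Prop where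
  rep : ∀ n, rA A n ≤ ρ
  cnt : ∃ c K0 : ℕ, ∀ K ≥ K0, (Nat.log 2 K) ^ D ≤ c * (runs A j K).card

theorem many_base (j : ℕ) : Many 0 j (Set.Iio (2 ^ (j + 4))) (2 ^ (j + 4)) := by
  constructor
  · intro n
    unfold rA
    have hsub : {x : ℕ × ℕ | x.1 ∈ Set.Iio (2 ^ (j + 4)) ∧ x.2 ∈ Set.Iio (2 ^ (j + 4)) ∧
        x.1 + x.2 = n} ⊆ (((range (2 ^ (j + 4))).image (fun a => (a, n - a)) : Finset (ℕ × ℕ)) :
          Set (ℕ × ℕ)) := by
      rintro ⟨a, b⟩ ⟨h1, _, h3⟩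
      rw [mem_coe, mem_image]
      refine ⟨a, mem_range.2 h1, ?_⟩
      simp only at h3
      rw [Prod.mk.injEq]
      exact ⟨rfl, by omega⟩
    calc _ ≤ (((range (2 ^ (j + 4))).image (fun a => (a, n - a)) : Finset (ℕ × ℕ)) :
          Set (ℕ × ℕ)).ncard := Set.ncard_le_ncard hsub (Finset.finite_toSet _)
      _ = ((range (2 ^ (j + 4))).image (fun a => (a, n - a))).card := Set.ncard_coe_finset _
      _ ≤ (range (2 ^ (j + 4))).card := card_image_le
      _ = 2 ^ (j + 4) := card_range _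
  · refine ⟨1, j + 5, fun K hK => ?_⟩
    rw [pow_zero, one_mul, Nat.one_le_iff_ne_zero, card_ne_zero]
    refine ⟨4, mem_runs.2 ⟨by omega, le_refl _, by omega, ?_⟩⟩
    rintro t ht ⟨n, hn1, hn2, hn3⟩
    apply hn3
    refine ⟨0, ?_, n, ?_, by omega⟩
    · show 0 < 2 ^ (j + 4)
      positivity
    · show n < 2 ^ (j + 4)
      exact lt_of_lt_of_le hn2 (Nat.pow_le_pow_right (by norm_num) (by omega))

/-- the representations by a truncated set -/
theorem cutrep {ρ : ℕ} {B : Set ℕ} (h : ∀ n, rA B n ≤ ρ) (u n : ℕ) :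
    repF (cut B u) (cut B u) n ≤ ρ :=
  (repF_le_rA (fun b hb => (mem_cut.1 hb).2) n).trans (h n)

/-- a truncated set is thin -/
theorem cutcard {ρ : ℕ} {B : Set ℕ} (h : ∀ n, rA B n ≤ ρ) (u : ℕ) :
    (cut B u).card ^ 2 ≤ 2 ^ (u + 1) * ρ := by
  classical
  have hmap : ∀ x ∈ (cut B u) ×ˢ (cut B u), x.1 + x.2 ∈ range (2 ^ (u + 1)) := by
    intro x hx
    rw [mem_product, mem_cut, mem_cut] at hx
    rw [mem_range]
    have : 2 ^ (u + 1) = 2 ^ u + 2 ^ u := by ring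
    omega
  calc (cut B u).card ^ 2 = ((cut B u) ×ˢ (cut B u)).card := by rw [card_product, sq]
    _ = ∑ n ∈ range (2 ^ (u + 1)),
        (((cut B u) ×ˢ (cut B u)).filter (fun x => x.1 + x.2 = n)).card :=
        card_eq_sum_card_fiberwise hmap
    _ ≤ ∑ _n ∈ range (2 ^ (u + 1)), ρ := by
        refine sum_le_sum (fun n _ => ?_)
        exact cutrep h u n
    _ = 2 ^ (u + 1) * ρ := by rw [sum_const, card_range, smul_eq_mul]

/-- a good scale of a window -/
theorem key_window {A B : Set ℕ} {κ u m : ℕ} (hm1 : 2 ^ (8 * κ) ≤ m) (hm2 : m ≤ 2 ^ (8 * κ + 8))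
    (hA : ∀ n, 11 * m ≤ n → (∃ b ∈ cut B u, ∃ b' ∈ cut B u, b + b' = n / m - 11) →
        ∃ a ∈ A, ∃ b ∈ A, a + b = n) :
    ∀ l, 13 ≤ l → l < u → (∀ t < 10, ¬ Bad B (l - t)) → ¬ Bad A (8 * κ + l) := by
  have hm0 : 0 < m := lt_of_lt_of_le (by positivity) hm1
  rintro l hl1 hl2 hB ⟨n, hn1, hn2, hn3⟩
  apply hn3
  have f1 : 2 ^ (l - 8) ≤ n / m := by
    rw [Nat.le_div_iff_mul_le hm0]
    calc 2 ^ (l - 8) * m ≤ 2 ^ (l - 8) * 2 ^ (8 * κ + 8) := Nat.mul_le_mul_left _ hm2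
      _ = 2 ^ (8 * κ + l) := by rw [← pow_add]; congr 1; omega
      _ ≤ n := hn1
  have f2 : n / m < 2 ^ (l + 1) := by
    rw [Nat.div_lt_iff_lt_mul hm0]
    calc n < 2 ^ (8 * κ + l + 1) := hn2
      _ = 2 ^ (l + 1) * 2 ^ (8 * κ) := by rw [← pow_add]; congr 1; omega
      _ ≤ 2 ^ (l + 1) * m := Nat.mul_le_mul_left _ hm1
  have f3 : 2 ^ (l - 8) = 2 ^ (l - 9) + 2 ^ (l - 9) := by
    have : l - 8 = (l - 9) + 1 := by omega
    rw [this]; ring
  have f4 : 16 ≤ 2 ^ (l - 9) := by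
    calc 16 = 2 ^ 4 := by norm_num
      _ ≤ 2 ^ (l - 9) := Nat.pow_le_pow_right (by norm_num) (by omega)
  obtain ⟨β, hβ⟩ : ∃ β, β = n / m - 11 := ⟨_, rfl⟩
  have f5 : 2 ^ (l - 9) ≤ β := by omega
  have f6 : β < 2 ^ (l + 1) := by omega
  have f7 : 11 * m ≤ n := by
    calc 11 * m ≤ n / m * m := Nat.mul_le_mul_right _ (by omega)
      _ ≤ n := Nat.div_mul_le_self _ _
  have hβ0 : β ≠ 0 := by omega
  obtain ⟨t', ht'⟩ : ∃ t', t' = Nat.log 2 β := ⟨_, rfl⟩
  have g1 : 2 ^ t' ≤ β := by rw [ht']; exact Nat.pow_log_le_self 2 hβ0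
  have g2 : β < 2 ^ (t' + 1) := by rw [ht']; exact Nat.lt_pow_succ_log_self (by norm_num) β
  have g3 : t' < l + 1 := by
    rw [ht']; exact (Nat.log_lt_iff_lt_pow (by norm_num) hβ0).2 f6
  have g4 : l - 9 < t' + 1 := (Nat.pow_lt_pow_iff_right (by norm_num)).1 (lt_of_le_of_lt f5 g2)
  have g5 := hB (l - t') (by omega)
  have g6 : l - (l - t') = t' := by omega
  rw [g6] at g5
  unfold Bad at g5
  push Not at g5
  obtain ⟨b, hb, b', hb', hbb⟩ := g5 β g1 g2
  have g7 : 2 ^ (l + 1) ≤ 2 ^ u := Nat.pow_le_pow_right (by norm_num) (by omega)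
  exact hA n f7 ⟨b, mem_cut.2 ⟨by omega, hb⟩, b', mem_cut.2 ⟨by omega, hb'⟩, by omega⟩

/-- a run of a window -/
theorem run_window {A B : Set ℕ} {κ u : ℕ}
    (hw : ∀ l, 13 ≤ l → l < u → (∀ t < 10, ¬ Bad B (l - t)) → ¬ Bad A (8 * κ + l))
    {j l : ℕ} (h : l ∈ runs B (j + 10) u) : Run A j (8 * κ + (l + 9)) := by
  rw [mem_runs] at h
  obtain ⟨h1, h2, h3, h4⟩ := h
  intro t ht
  have e1 := hw (l + 9 + t) (by omega) (by omega) (by
    intro s hs
    have e2 := h4 (9 + t - s) (by omega)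
    have e3 : l + (9 + t - s) = l + 9 + t - s := by omega
    rwa [e3] at e2)
  have e4 : 8 * κ + (l + 9) + t = 8 * κ + (l + 9 + t) := by omega
  rwa [e4]

/-- the number of the runs -/
theorem runs_sum {A B : Set ℕ} {κ u : ℕ → ℕ} {j K : ℕ}
    (hw : ∀ i l, 13 ≤ l → l < u i → (∀ t < 10, ¬ Bad B (l - t)) → ¬ Bad A (8 * κ i + l))
    (hsep : ∀ i i', i < i' → 8 * κ i + u i ≤ 8 * κ i') (I : Finset ℕ)
    (hI : ∀ i ∈ I, 8 * κ i + u i ≤ K) :
    ∑ i ∈ I, (runs B (j + 10) (u i)).card ≤ (runs A j K).card := by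
  classical
  have h1 : (I.biUnion (fun i => (runs B (j + 10) (u i)).image (fun l => 8 * κ i + (l + 9)))) ⊆
      runs A j K := by
    intro k hk
    rw [mem_biUnion] at hk
    obtain ⟨i, hi, hk⟩ := hk
    rw [mem_image] at hk
    obtain ⟨l, hl, rfl⟩ := hk
    have hl' := mem_runs.1 hl
    have := hI i hi
    exact mem_runs.2 ⟨by omega, by omega, by omega, run_window (hw i) hl⟩
  refine le_trans (le_of_eq ?_) (card_le_card h1)
  rw [card_biUnion]
  · refine sum_congr rfl (fun i _ => ?_)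
    rw [card_image_of_injective]
    intro a b hab
    simp only at hab
    omega
  · have key : ∀ i i', i < i' → Disjoint
        ((runs B (j + 10) (u i)).image (fun l => 8 * κ i + (l + 9)))
        ((runs B (j + 10) (u i')).image (fun l => 8 * κ i' + (l + 9))) := by
      intro i i' hii
      rw [disjoint_left]
      intro k hk hk'
      rw [mem_image] at hk hk'
      obtain ⟨l, hl, rfl⟩ := hk
      obtain ⟨l', hl', he⟩ := hk'
      have hl := mem_runs.1 hl
      have := hsep i i' hii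
      omega
    intro i _ i' _ hne
    rcases lt_or_gt_of_ne hne with h | h
    · exact key i i' h
    · exact (key i' i h).symm

end Pool.Agent.Helper667_BS
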