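import Pool.Agent.Helper667_BS.Geo

/-!
# The induction step with geometric scales
-/

set_option autoImplicit false

namespace Pool.Agent.Helper667_BS

open Finset Pool.Agent.H125R2.ET Pool.Agent.Helper667_AS

/-- the conclusion of `wide_set` -/
def WideSet (C C4 K0 : ℕ) : Prop :=
  ∀ (s : WSys C), (∀ i, K0 ≤ s.κ i) → ∀ ρ : ℕ → ℕ,
      (∀ i n, repF (s.B i) (s.B i) n ≤ ρ i) → ∃ A : Set ℕ,
      (∀ n, rA A n = 0 ∨ ∃ i, 2 ^ (8 * s.κ i) ≤ n ∧
        (rA A n : ℝ) ≤ C4 * (ρ i + s.κ i / s.γ i)) ∧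
      (∀ i n, 11 * (s.p i) ^ 8 ≤ n → (∃ b ∈ s.B i, ∃ b' ∈ s.B i, b + b' = n / (s.p i) ^ 8 - 11) →
        ∃ a ∈ A, ∃ b ∈ A, a + b = n)

/-- the base sets exist -/
def HasBase (C : ℕ) : Prop := ∀ p : ℕ, p.Prime → 7 < p → ∃ D : Finset ℕ, IsBase C p D

theorem consts : ∃ C C4 K0 : ℕ, HasBase C ∧ WideSet C C4 K0 := by
  obtain ⟨C, hC⟩ := base_exists
  have hM : BlockMom C := block_mom C
  have hR : BlockRange C := block_range C
  obtain ⟨C4, K0, hmain⟩ := wide_set C hM hR (reg_prob C hM hR)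
  exact ⟨C, C4, K0, hC, hmain⟩

/-- the windows -/
theorem windows {C C4 K0 : ℕ} (hC : HasBase C) (hmain : WideSet C C4 K0) {ρ : ℕ} {B : Set ℕ}
    (hB : ∀ n, rA B n ≤ ρ) {E : ℕ} (hE : 64 ≤ E) (w : ℕ) :
    ∃ (A : Set ℕ) (k0 : ℕ), 4 * E * w ≤ k0 ∧ E ≤ k0 ∧ (∀ n, rA A n ≤ C4 * (ρ + 8 * E)) ∧
      ∀ i l, 13 ≤ l → l < geo E k0 i / E → (∀ t < 10, ¬ Bad B (l - t)) →
        ¬ Bad A (8 * geo E k0 i + l) := by
  obtain ⟨N0, hN0⟩ := pow_le_two_pow 3
  obtain ⟨y0, hy0⟩ : ∃ y0, y0 = 128 * E ^ 2 + N0 + C + 8 + ρ + w + K0 := ⟨_, rfl⟩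
  obtain ⟨k0, hk0⟩ : ∃ k0, k0 = 4 * E * y0 := ⟨_, rfl⟩
  have hE0 : 0 < 4 * E := by omega
  have hy1 : 1 ≤ y0 := by
    have : 0 ≤ E ^ 2 := Nat.zero_le _
    omega
  have hk1 : 4 * E ≤ k0 := by
    rw [hk0]
    exact Nat.le_mul_of_pos_right _ hy1
  have hγ : ∀ i, y0 ≤ geo E k0 i / (4 * E) := by
    intro i
    rw [Nat.le_div_iff_mul_le hE0]
    have := geo_ge E k0 i
    calc y0 * (4 * E) = k0 := by rw [hk0]; ring
      _ ≤ geo E k0 i := this
  have hcmp : ∀ i, geo E k0 i ≤ 8 * E * (geo E k0 i / (4 * E)) := by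
    intro i
    have e1 := Nat.div_add_mod (geo E k0 i) (4 * E)
    have e2 := Nat.mod_lt (geo E k0 i) hE0
    have e3 := hγ i
    have e4 : 4 * E * 1 ≤ 4 * E * (geo E k0 i / (4 * E)) := Nat.mul_le_mul_left _ (by omega)
    have e5 : 8 * E * (geo E k0 i / (4 * E)) = 4 * E * (geo E k0 i / (4 * E)) +
        4 * E * (geo E k0 i / (4 * E)) := by ring
    omega
  have hK0 : ∀ i, K0 ≤ geo E k0 i := by
    intro i
    have e1 := hγ i
    have e2 := Nat.div_le_self (geo E k0 i) (4 * E)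
    omega
  -- primes
  have h1 : ∀ i : ℕ, ∃ p : ℕ, p.Prime ∧ 2 ^ (geo E k0 i) < p ∧ p ≤ 2 ^ (geo E k0 i + 1) := by
    intro i
    obtain ⟨p, hp, h1, h2⟩ := Nat.exists_prime_lt_and_le_two_mul (2 ^ (geo E k0 i))
      (pow_ne_zero _ two_ne_zero)
    exact ⟨p, hp, h1, by rw [pow_succ 2]; omega⟩
  choose p hp hlo hhi using h1
  have h7 : ∀ i, 7 < p i := by
    intro i
    have h2 := geo_ge E k0 i
    have h3 : 2 ^ 3 ≤ 2 ^ (geo E k0 i) :=
      Nat.pow_le_pow_right (by norm_num) (by omega)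
    have := hlo i
    omega
  have h2 : ∀ i, ∃ D : Finset ℕ, IsBase C (p i) D := fun i => hC (p i) (hp i) (h7 i)
  choose D hD using h2
  obtain ⟨s, hsB, hsκ, hsu, hsγ⟩ : ∃ s : WSys C, (∀ i, s.B i = cut B (geo E k0 i / E)) ∧
      (∀ i, s.κ i = geo E k0 i) ∧ (∀ i, s.u i = geo E k0 i / E) ∧
      (∀ i, s.γ i = geo E k0 i / (4 * E)) := by
    refine ⟨⟨p, D, fun i => cut B (geo E k0 i / E), fun i => geo E k0 i,
      fun i => geo E k0 i / E, fun i => geo E k0 i / (4 * E), hp, hlo, hhi, hD, ?_, ?_, ?_, ?_, ?_,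
      ?_, ?_, ?_⟩, fun i => rfl, fun i => rfl, fun i => rfl, fun i => rfl⟩
    · intro i b hb
      exact (mem_cut.1 hb).1
    · intro i j hj
      exact geo_gap hE hj
    · intro i j _
      refine (cutcard hB _).trans ?_
      rw [pow_succ, pow_add, mul_assoc]
      refine Nat.mul_le_mul_left _ ?_
      have e1 := hγ i
      calc 2 * ρ ≤ 2 * 2 ^ ρ := Nat.mul_le_mul_left _ (Nat.lt_two_pow_self).le
        _ = 2 ^ (ρ + 1) := by ring
        _ ≤ 2 ^ (2 * (geo E k0 i / (4 * E))) := Nat.pow_le_pow_right (by norm_num) (by omega)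
    · intro i
      calc 32 * (geo E k0 i / E) ≤ E * (geo E k0 i / E) := Nat.mul_le_mul_right _ (by omega)
        _ ≤ geo E k0 i := Nat.mul_div_le _ _
    · intro i
      calc 32 * (geo E k0 i / (4 * E)) ≤ 4 * E * (geo E k0 i / (4 * E)) :=
            Nat.mul_le_mul_right _ (by omega)
        _ ≤ geo E k0 i := Nat.mul_div_le _ _
    · intro i
      have := geo_idx (E := E) (k0 := k0) (by omega) (by omega) i
      omega
    · intro i
      obtain ⟨y, hy⟩ : ∃ y, y = geo E k0 i / (4 * E) := ⟨_, rfl⟩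
      obtain ⟨x, hx⟩ : ∃ x, x = geo E k0 i := ⟨_, rfl⟩
      have e1 := hγ i
      have e2 := hcmp i
      have e3 : i ≤ geo E k0 i := by
        have := geo_idx (E := E) (k0 := k0) (by omega) (by omega) i
        omega
      have e3' : y ≤ x := by rw [hy, hx]; exact Nat.div_le_self _ _
      rw [← hy] at e1 e2 ⊢
      rw [← hx] at e2 e3 ⊢
      have e4 : N0 ≤ y := by omega
      have e5 := hN0 y e4
      calc i * (x + C + 5) ≤ x * (2 * x) := Nat.mul_le_mul e3 (by omega)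
        _ = 2 * (x * x) := by ring
        _ ≤ 2 * ((8 * E * y) * (8 * E * y)) := Nat.mul_le_mul_left _ (Nat.mul_le_mul e2 e2)
        _ = 128 * E ^ 2 * y ^ 2 := by ring
        _ ≤ y * y ^ 2 := Nat.mul_le_mul_right _ (by omega)
        _ = y ^ 3 := by ring
        _ ≤ 2 ^ y := e5
    · intro i
      have := hγ i
      omega
  obtain ⟨A, hA1, hA2⟩ := hmain s (fun i => by rw [hsκ i]; exact hK0 i) (fun _ => ρ) (by
    intro i n
    rw [hsB i]
    exact cutrep hB _ n)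
  refine ⟨A, k0, ?_, ?_, ?_, ?_⟩
  · rw [hk0]
    exact Nat.mul_le_mul_left _ (by omega)
  · omega
  · intro n
    rcases hA1 n with h0 | ⟨i, -, hi2⟩
    · rw [h0]
      exact Nat.zero_le _
    · rw [hsκ i, hsγ i] at hi2
      have e1 : ((geo E k0 i : ℕ) : ℝ) / ((geo E k0 i / (4 * E) : ℕ) : ℝ) ≤ 8 * E := by
        have hpos : (0 : ℝ) < ((geo E k0 i / (4 * E) : ℕ) : ℝ) := by
          have := hγ i
          exact_mod_cast (by omega : 0 < geo E k0 i / (4 * E))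
        rw [div_le_iff₀ hpos]
        exact_mod_cast hcmp i
      have e2 : (rA A n : ℝ) ≤ C4 * (ρ + 8 * E) :=
        hi2.trans (mul_le_mul_of_nonneg_left (by linarith) (Nat.cast_nonneg _))
      exact_mod_cast e2
  · intro i
    have hm1 : 2 ^ (8 * geo E k0 i) ≤ (s.p i) ^ 8 := by
      have := (s.lo i).le
      rw [hsκ i] at this
      calc 2 ^ (8 * geo E k0 i) = (2 ^ (geo E k0 i)) ^ 8 := by
            rw [← pow_mul, mul_comm]
        _ ≤ (s.p i) ^ 8 := Nat.pow_le_pow_left this 8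
    have hm2 : (s.p i) ^ 8 ≤ 2 ^ (8 * geo E k0 i + 8) := by
      have := s.hi i
      rw [hsκ i] at this
      calc (s.p i) ^ 8 ≤ (2 ^ (geo E k0 i + 1)) ^ 8 := Nat.pow_le_pow_left this 8
        _ = 2 ^ (8 * geo E k0 i + 8) := by rw [← pow_mul]; congr 1; ring
    exact key_window hm1 hm2 (fun n hn h => hA2 i n hn (by rw [hsB i]; exact h))

end Pool.Agent.Helper667_BS
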